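import Mathlib
import Pool.Agent.Lib.MP_64d474_lc.Pc2.Main2

/-!
# Explicit rank tests between the noncommutative and the commutative rank

Let `A = ∑ x_j B_j` be a symbolic matrix of size `n` with `m` variables over a field of
characteristic zero, and let the variables be divided into `k` classes, `cl j` being the class of
`x_j`.  Variables with different classes commute, variables with the same class do not.  So square
matrices `Y_j` are substituted as `1 ⊗ ⋯ ⊗ Y_j ⊗ ⋯ ⊗ 1`, with `Y_j` at the place `cl j` (`place`).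
`A` is nonsingular in this sense if `∑ Y_j ⊗ B_j` is nonsingular for some `Y_j` (`PcNonsing`), and
the rank `pcRank B cl` is the largest size of a submatrix that is nonsingular in this sense.

The tests.  Let `T_0, …, T_m` be the explicit tuple of integer matrices of size `2 ^ t` that is
built by `L` steps `T ↦ diag_ω [[T, P(ω)], [0, T]]`, where `P(ω)` is a combination of signed
translations (`tower`, `Data`).  On the vectors of length `k t` over `ℤ/2` put
`P_j = ⊗_i (T_{j+1} if cl j = i, else T_0)` (`ptup`).  The tests are the twists of `(P_1, …, P_m)`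
with integer parameters between `0` and `N` at all places but one (`tests`).

Part 1.  Let `N ≥ 4 n (k - 1) t`, let `R` be the largest rank of `A` on the tests and
`d = 2 ^ (k t)`.  Then `d (pcRank - 1) < R ≤ d · pcRank`.  For `k = 1` there is a single test.

Part 2.  `A` is nonsingular in the above sense if and only if the rank `pcRank` is `n`; the rank of
`∑ Y_j ⊗ B_j` for matrices `Y_j` of size `D` is at most `D ^ k` times `pcRank`; for `k = 1` the
rank is the noncommutative rank; it can only increase if classes are merged; for classes of at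
most one variable each it is the maximal rank of `∑ x_j B_j`.

Part 3.  There are data for `2 n` with `t ≤ 164 (log₂ (2 n) + 2) (log₂ (2 n) + log₂ (m + 1) + 5)`.
So for `k ≤ m` there are `(n m) ^ O(k log² (n m))` tests, of size `(n m) ^ O(k log (n m))`.
-/

open Matrix Module

namespace Pool.Agent.Lib.MP_64d474_lc.Old.CommutationHierarchy

open Pool.Agent.Lib.MP_64d474_lc Pool.Agent.Lib.MP_64d474_lc.Op Pool.Agent.Lib.MP_64d474_lc.Nc
  Pool.Agent.Lib.MP_64d474_lc.Pc Pool.Agent.Lib.MP_64d474_lc.Pc2

theorem result.{u} :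
    -- Part 1: the tests
    (∀ (n m k : ℕ) (X : Data (2 * n) (m + 1)) (cl : Fin m → Fin k) (i₀ : Fin k) (N : ℕ),
      4 * n * ((k - 1) * X.t) ≤ N →
      (Pc2.tests X cl i₀ N).card ≤ (N + 1) ^ (2 * ((k - 1) * X.t)) ∧
      ∀ (F : Type u) [Field F] [CharZero F] (B : Fin m → Matrix (Fin n) (Fin n) F) (d : ℕ),
        d = 2 ^ (k * X.t) →
          (∀ Y ∈ Pc2.tests X cl i₀ N, (tens (cst F Y) B).rank ≤ d * pcRank B cl) ∧
          ∃ Y ∈ Pc2.tests X cl i₀ N, d * pcRank B cl < (tens (cst F Y) B).rank + d) ∧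
    -- Part 2: the rank
    (∀ (F : Type u) [Field F] [CharZero F] (n m k : ℕ) (B : Fin m → Matrix (Fin n) (Fin n) F)
      (cl : Fin m → Fin k),
      (PcNonsing B cl ↔ pcRank B cl = n) ∧
      (∀ (D : ℕ) (Y : Fin m → Matrix (Fin D) (Fin D) F),
        (tens (fun j => place (cl j) (Y j)) B).rank ≤ D ^ k * pcRank B cl) ∧
      (k = 1 → pcRank B cl = ncRank B) ∧
      (∀ (k' : ℕ) (π : Fin k → Fin k'), pcRank B cl ≤ pcRank B (π ∘ cl)) ∧
      (Function.Injective cl → (∀ x : Fin m → F, (∑ j, x j • B j).rank ≤ pcRank B cl) ∧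
        ∃ x : Fin m → F, (∑ j, x j • B j).rank = pcRank B cl)) ∧
    -- Part 3: small data
    ∀ n m : ℕ, ∃ X : Data (2 * n) (m + 1),
      X.t ≤ 164 * (Nat.log 2 (2 * n) + 2) * (Nat.log 2 (2 * n) + Nat.log 2 (m + 1) + 5) ∧
        ∀ j x y, |X.T j x y| ≤ 2 ^ (16 * (Nat.log 2 (2 * n) + Nat.log 2 (m + 1) + 5)) :=
  ⟨fun _ _ _ X cl i₀ N hN => ⟨Pc2.card_tests X cl i₀ N,
    fun _ _ _ B d hd => Pc2.rank_tests X cl i₀ N hN B d hd⟩,
    fun _ _ _ _ _ _ B cl => rank_main B cl, fun n m => exists_small (2 * n) (m + 1)⟩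

end Pool.Agent.Lib.MP_64d474_lc.Old.CommutationHierarchy
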