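import Pool.Agent.Lib.MP_64d474_lc.Kal.Val
import Pool.Agent.Lib.MP_64d474_lc.Kal.MainR
import Pool.Agent.Lib.MP_64d474_lc.Kal.Vander
import Pool.Agent.Lib.MP_64d474_lc.Kal.StepN
import Pool.Agent.Lib.MP_64d474_lc.Kal.Region
import Pool.Agent.Lib.MP_64d474_lc.Kal.Base
import Pool.Agent.Lib.MP_64d474_lc.Kal.CheapK
import Pool.Agent.Lib.MP_64d474_lc.Kal.StepP
import Pool.Agent.Lib.MP_64d474_lc.Kal.Single
import Pool.Agent.Lib.MP_64d474_lc.Kal.Hybrid
import Pool.Agent.Lib.MP_64d474_lc.Kal.Bal
import Pool.Agent.Lib.MP_64d474_lc.Kal.Tree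
import Pool.Agent.Lib.MP_64d474_lc.Kal.Grid
import Pool.Agent.Lib.MP_64d474_lc.Kal.Det
import Pool.Agent.Lib.MP_64d474_lc.Kal.Card
import Pool.Agent.Lib.MP_64d474_lc.Kal.Net
import Pool.Agent.Lib.MP_64d474_lc.Kal.DegF

/-!
# An explicit set of subexponential size on which all small arithmetic formulas are tested

The explicit finite set `formulaTests m s g` of integer vectors has `2 ^ O(s ^ (1 / 2) log (m s g))`
elements.  Every arithmetic formula with gates for addition, multiplication and at most `g`
inversions, with at most `s` leaves that are variables and any constants, that is defined and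
nonzero at some point is defined and nonzero at a point of this set.  More generally the sets
`hits m β N D` test all symbolic matrices whose pieces with variables are the leaves of a tree all
of whose subtrees have cuts of small width.

The variables are divided into classes of consecutive variables with about `R` occurrences.  All
classes use the same `N` sources `z`, and every class has one parameter `y` of its own.  As a
function of the variables of one class the determinant depends, up to a factor, on at most
`16 R w ^ 2` parameters.  So in a space of directions of the sources of small codimension it does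
not change, and in the remaining directions the values of the variables of the class are free.
-/

set_option autoImplicit false

open Finset MvPolynomial

namespace Pool.Agent.Lib.MP_64d474_lc.Old.FormulaTreeTests

open Pool.Agent.Lib.MP_64d474_lc.Kal

theorem result.{u} :
    (∀ m s g : ℕ,
      (formulaTests m s g).card ≤ ((m + 1) ^ 2 * (s * (g + 1) + 2) ^ 26) ^ (Nat.sqrt s + 1) ∧
      ∀ (F : Type u) [Field F] [CharZero F] (φ : Fm F m), φ.leaves ≤ s → φ.invs ≤ g →
        ∀ (x : Fin m → F) (v : F), φ.Val x v → v ≠ 0 →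
          ∃ h ∈ formulaTests m s g, ∃ u : F, φ.Val (fun k => (h k : F)) u ∧ u ≠ 0) ∧
    ∀ (m s R w N β D : ℕ), 1 ≤ R → 1 ≤ w → 18 * R * w ^ 2 ≤ N → 2 * (s / R) + 2 ≤ β →
      ((hits m β N D).card ≤ (m + 1) ^ β * (D + 1) ^ N * (N * D + 1) ^ β ∧
        ∀ h ∈ hits m β N D, ∀ k, h k ≤ N * D * (m * N * D) ^ N) ∧
      ∀ (F : Type u) [Field F] [CharZero F] (ι E : Type) [Fintype ι] [DecidableEq ι] [Fintype E]
        [DecidableEq E] (P : E → Matrix ι ι F) (κ : E → Option (Fin m)) (t : BT E),
        Good P (fun p => κ p ≠ none) w t → t.leaves.Nodup →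
        (∀ p, p ∈ t.leaves ↔ κ p ≠ none) → t.leaves.length ≤ s →
        min (Fintype.card ι) (∑ p ∈ univ.filter (fun p => κ p ≠ none), (P p).rank) ≤ D →
        ∀ x : Fin m → F, (mat P κ x).det ≠ 0 →
          ∃ h ∈ hits m β N D, (mat P κ fun k => (h k : F)).det ≠ 0 := by
  have hyb : StHybrid.{u} :=
    stHybrid (stStepP (stStepN stVander.{u}) (stCheapK stRegion.{u} stBase.{u})) stSingle.{u}
  have hT : StMainTree.{u} := stMainTree hyb stTree.{u}
  refine ⟨fun m s g => ⟨card_formulaTests stCard m s g, ?_⟩, ?_⟩
  · intro F _ _ φ hs hg x v hv hv0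
    exact mainVal hT stBal stGrid stBoth stNet stDegF F m φ s g (Nat.sqrt s + 1) _ _ _ hs hg
      (Nat.succ_le_succ (Nat.zero_le _))
      (Nat.add_le_add_right (Nat.mul_le_mul_left 2 (sqrt_div s)) 2) (by rw [Nat.mul_add]) le_rfl
      x v hv hv0
  · intro m s R w N β D hR hw hN hβ
    refine ⟨stCard m β N D, ?_⟩
    intro F _ _ ι E _ _ _ _ P κ t hgood hnd hleaf hs hD x hx
    exact mainTree hT stBal stGrid stDet F ι E P m κ t w s R β N D hgood hnd hleaf hs hw hR hβ
      hN hD x hx

end Pool.Agent.Lib.MP_64d474_lc.Old.FormulaTreeTests
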