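import Mathlib
import Pool.Agent.Lib.MP_64d474_lc.BB91.Def
import Pool.Agent.Lib.MP_64d474_lc.BB.Curve3
import Pool.Agent.Lib.MP_64d474_lc.BB55.Grow
import Pool.Agent.Lib.MP_64d474_lc.BB55.Tests
import Pool.Agent.Lib.MP_64d474_lc.Op.DimFree
import Pool.Agent.Lib.MP_64d474_lc.Op.Lower

/-!
# Explicit test vectors for the rank of symbolic matrices

All sets of vectors below are explicit and depend neither on the size of the matrices nor on the
field nor on the matrices.

The curves `curve ℕ m N D : ℕ → ℕ ^ m`, for short `c_D`, are defined by `c_1 (z) = (z ^ k)_k`,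
`c_{2s} = c_s * c_s`, `c_{2s+1} = c_1 * c_{2s}`, where
`(c_a * c_b) (z) = c_a (z ^ w) + z ^ M c_b (z ^ w + z ^ (w - 1))` with `w = C(N, a) ^ 2` and
`M = (a + b) w e_b + 1`, and the numbers `e_D` are defined by `e_1 = m + 1` and
`e_{a+b} = (a + b + 2) w e_b`; moreover `exc m N D = D e_D`.

* `tests m b κ r` consists of all vectors `c (z) + ∑_{i < κ} t_i (s_i ^ k)_k`, where
  `c = curve ℕ m b b`, `z ≤ r exc m b b`, `s_i = 2 ^ i a`, `a ≤ κ m` and `t_i ≤ r`.
* `steps m r g` consists of all vectors `t c (z)`, where `c = curve ℕ m r D`, `1 ≤ D ≤ r / g`,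
  `1 ≤ t ≤ r` and `z ≤ exc m r D`.
* `signSet φ α` consists of the vectors `((-1) ^ (u · φ (α_k) + v · φ (α_k ^ 3)))_k`, where `K` is
  a field of characteristic 2, `φ : K → (ℤ/2)^l` is additive and injective, the elements `α_k` of
  `K` are distinct, and `u, v` run over `(ℤ/2)^l`; `scheme φ α q` consists of all sums of
  `12 q ^ 2` terms `z a` with `a ∈ signSet φ α` and `0 ≤ z ≤ 6 q ^ 3 (2 q + 1)`.

Let `F` be a field of characteristic zero and `B₀, …, B_m` matrices of size `n × n` over `F`, where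
`n` is arbitrary.

Part 1.  Suppose that the matrices `S (∑ x_k B_k) T`, where `x` runs over a subspace `W` of `F ^ m`
of codimension at most `κ`, are block triangular with blocks of size at most `b`, and one of them
is nonsingular.  Then `S (∑ h_k B_k) T` is nonsingular for some `h ∈ tests m b κ r`.  The matrices
`S` of size `r × n` and `T` of size `n × r`, the subspace and the blocks are not given.  (For
`κ = 0` and `b = r` this says that `tests` recognises the matrices of rank at least `r`.)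

Part 2.  If the rank at the point `c` is at least `g` below `min r (rank at x)`, then some vector
`h ∈ steps m r g` leads to a point `c + h` of larger rank.

Part 3.  Some point of `signSet φ α` reaches one third of the noncommutative rank, and for every
`q` some point of `scheme φ α q` reaches the largest rank up to the factor `1 - 1 / q`.

Part 4.  Part 3 needs at least `C(m + d - 1, d)` points for every factor larger than `1 - 1 / d`.
-/

open Matrix Module

namespace Pool.Agent.Lib.MP_64d474_lc.Old.RankTests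

open Pool.Agent.Lib.MP_64d474_lc.BB91 Pool.Agent.Lib.MP_64d474_lc.BB55
  Pool.Agent.Lib.MP_64d474_lc.Op

/-- Hidden blocks on a hidden subspace. -/
def HiddenBlocks.{u} : Prop :=
  ∀ (m b κ r : ℕ),
    (tests m b κ r).card ≤ (r * (m + 1) * 2 ^ (24 * b) + 1) * (κ * m + 1) * (r + 1) ^ κ ∧
    ∀ (F : Type u) [Field F] [CharZero F] (n : ℕ) (B : Fin m → Matrix (Fin n) (Fin n) F)
      (S : Matrix (Fin r) (Fin n) F) (T : Matrix (Fin n) (Fin r) F)
      (W : Submodule F (Fin m → F)) (β : Fin r → ℕ),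
      m ≤ finrank F W + κ → (∀ i, (Finset.univ.filter fun j => β j = i).card ≤ b) →
      (∀ x ∈ W, (S * (∑ k, x k • B k) * T).BlockTriangular β) →
      (∃ x ∈ W, (S * (∑ k, x k • B k) * T).det ≠ 0) →
      ∃ h ∈ tests m b κ r, (S * (∑ k, (h k : F) • B k) * T).det ≠ 0

/-- Steps that increase the rank. -/
def ImprovingSteps.{u} : Prop :=
  ∀ (m r g : ℕ), 1 ≤ g →
    ((steps m r g).card : ℝ) ≤ ((m : ℝ) + 1) * (r : ℝ) ^ 2 * (8 * (g : ℝ)) ^ (8 * (r : ℝ) / g) ∧
    ∀ (F : Type u) [Field F] [CharZero F] (n : ℕ) (B₀ : Matrix (Fin n) (Fin n) F)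
      (B : Fin m → Matrix (Fin n) (Fin n) F) (c x : Fin m → F),
      (B₀ + ∑ k, c k • B k).rank + g ≤ min r (B₀ + ∑ k, x k • B k).rank →
      ∃ h ∈ steps m r g,
        (B₀ + ∑ k, c k • B k).rank < (B₀ + ∑ k, (c k + (h k : F)) • B k).rank

/-- The tests for an approximation of the rank. -/
def ApproximateTests.{u} : Prop :=
  ∀ (K : Type) [Field K] [CharP K 2] (l m : ℕ) (φ : K → Fin l → ZMod 2) (α : Fin m → K),
    IsCode φ α → ∀ (F : Type u) [Field F] [CharZero F] (n : ℕ) (B₀ : Matrix (Fin n) (Fin n) F)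
      (B : Fin m → Matrix (Fin n) (Fin n) F),
      (∃ a ∈ signSet φ α, ncRank B ≤ 3 * (∑ k, (a k : F) • B k).rank) ∧
      ∀ q : ℕ, ∃ h ∈ scheme φ α q, ∀ x : Fin m → F,
        (q - 1) * (B₀ + ∑ k, x k • B k).rank ≤ q * (B₀ + ∑ k, (h k : F) • B k).rank

/-- The number of these tests. -/
def ApproximateSize : Prop :=
  ∀ m q : ℕ, 1 ≤ m → 1 ≤ q → ∃ (K : Type) (_ : Field K) (_ : CharP K 2) (l : ℕ)
    (φ : K → Fin l → ZMod 2) (α : Fin m → K), IsCode φ α ∧ 2 ^ l ≤ 2 * m ∧
      (signSet φ α).card ≤ 4 * m ^ 2 ∧ (scheme φ α q).card ≤ (9 * m * q ^ 2) ^ (24 * q ^ 2) ∧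
      ∀ h ∈ scheme φ α q, ∀ k, |h k| ≤ 216 * q ^ 6

/-- The lower bound. -/
def ManyNeeded.{u} : Prop :=
  ∀ (F : Type u) [Field F] [CharZero F] (m d : ℕ) (ζ : F), 0 < d → IsPrimitiveRoot ζ d →
    ∀ H : Finset (Fin m → F), H.card < (m + d - 1).choose d →
      ∃ n : ℕ, 0 < n ∧ ∃ B : Fin m → Matrix (Fin n) (Fin n) F,
        (∃ y : Fin m → F, (∑ k, y k • B k).det ≠ 0) ∧
        ∀ h ∈ H, d * (∑ k, h k • B k).rank ≤ (d - 1) * n

theorem result.{u} : HiddenBlocks.{u} ∧ ImprovingSteps.{u} ∧ ApproximateTests.{u} ∧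
    ApproximateSize ∧ ManyNeeded.{u} := by
  refine ⟨?_, ?_, ?_, ?_, ?_⟩
  · intro m b κ r
    exact ⟨card_tests_le m b κ r, fun F _ _ n B S T W β h1 h2 h3 h4 =>
      tests_hits_blocks b κ r n B S T W h1 β h2 h3 h4⟩
  · intro m r g hg
    exact ⟨steps_card m r g hg, fun F _ _ n B₀ B c x h => steps_spec hg B₀ B c x h⟩
  · intro K _ _ l m φ α h F _ _ n B₀ B
    exact dimFree_hits K l m φ α h F n B₀ B
  · exact fun m q hm hq => dimFree_card m q hm hq
  · intro F _ _ m d ζ hd hζ H hH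
    exact lower_bound hd hζ H hH

end Pool.Agent.Lib.MP_64d474_lc.Old.RankTests
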