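import Pool.Agent.Lib.MP_64d474_lc.Circ.Gap
import Pool.Agent.Lib.MP_64d474_lc.Circ.Det
import Pool.Agent.Lib.MP_64d474_lc.Circ.Sign
import Pool.Agent.Lib.MP_64d474_lc.Circ.Tens
import Pool.Agent.Lib.MP_64d474_lc.Circ.Path
import Pool.Agent.Lib.MP_64d474_lc.Circ.Game
import Pool.Agent.Lib.MP_64d474_lc.Circ.Comp
import Pool.Agent.Lib.MP_64d474_lc.Circ.ExpA
import Pool.Agent.Lib.MP_64d474_lc.Circ.ExpB
import Pool.Agent.Lib.MP_64d474_lc.Circ.ExpC
import Pool.Agent.Lib.MP_64d474_lc.Circ.Expander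
import Pool.Agent.Lib.MP_64d474_lc.Circ.Triple
import Pool.Agent.Lib.MP_64d474_lc.Circ.Class3
import Pool.Agent.Lib.MP_64d474_lc.Circ.Move3
import Pool.Agent.Lib.MP_64d474_lc.Circ.Support
import Pool.Agent.Lib.MP_64d474_lc.Circ.Logic

/-!
MP_64d474_lc: circuits which respect the permutations of a set `S` of indices and distinguish the
nonsingular symbolic matrices from those of rank at most `n - N` have size at least
`3 ^ (|S| / (10 ^ 4 * N))`.
-/

namespace Pool.Agent.Results.MP_64d474_lc.SymmetricGap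

open Pool.Agent.Lib.MP_64d474_lc.Circ

/-- A nonsingular symmetric symbolic matrix and one whose rank is at most `n - N` at every point,
which cannot be distinguished by circuits with small orbits which are symmetric on `S`, nor by
formulas with few variables. -/
theorem result (q N n : ℕ) (S : Finset (Fin n)) (hq : 1 ≤ q) (hN : 1 ≤ N)
    (hS : 10 ^ 4 * q * N ≤ S.card) :
    ∃ a b : Fin n → Fin n → Fin n → ℤ,
      (∀ i j l, a i j l = a j i l ∧ a i j l ∈ ({-1, 0, 1, 2} : Set ℤ)) ∧
      (∀ i j l, b i j l = b j i l ∧ b i j l ∈ ({-1, 0, 1, 2} : Set ℤ)) ∧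
      (symMat a).det ≠ 0 ∧
      (∀ (F : Type) [Field F] (x : Fin n → F),
        (Matrix.of fun i j => ∑ l, (b i j l : F) * x l).rank + N ≤ n) ∧
      (∀ (V : Type) (C : Circuit n V), C.SymmetricOn S →
        (∀ g, (C.orbitOn S g).Finite ∧ (C.orbitOn S g).ncard < 3 ^ q) →
        C.val a C.out = C.val b C.out) ∧
      ∀ φ : CForm (2 * q), (∀ v, Holds a φ v) ↔ (∀ v, Holds b φ v) :=
  gap_on (pair (stExpander stExpA stExpB stExpC) stComp (stGame stPath) stSign stDet stTens)
    (stSupport stTriple stClass stMove) stTransfer stLogic q N n S hq hN hS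

end Pool.Agent.Results.MP_64d474_lc.SymmetricGap
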